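import Mathlib
import Pool.Agent.R924.E11

set_option autoImplicit false

/-!
Over every field there is a proper surface whose category of perfect complexes is the thick closure
of two line bundles.

The surface is the first Hirzebruch surface, and the line bundles are the structure sheaf and
`O(4 E + 2 F)`, up to isomorphism, where `E` is the exceptional curve and `F` a fibre.
`isPerfect X` is the class of all objects of the (unbounded) derived category of all modules over
the structure sheaf of `X` which are locally isomorphic to bounded complexes of finite locally free
modules, `IsLineBundle L` says that `L` is locally isomorphic to the structure sheaf, and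
`triangEnvelope` is the thick closure (Mathlib).
-/

universe u

open CategoryTheory CategoryTheory.Limits AlgebraicGeometry

namespace Pool.Agent.Results.MP_d96382_ag.TwoLineBundlesGenerate

open Pool.Agent.W456 Pool.Agent.R924

attribute [local instance] HasDerivedCategory.standard

theorem result (k : Type u) [Field k] :
    ∃ (X : Scheme.{u}) (π : X ⟶ Spec (CommRingCat.of k)) (L : Fin 2 → X.Modules),
      IsProper π ∧ topologicalKrullDim X = 2 ∧ (∀ i, IsLineBundle (L i)) ∧
      (ObjectProperty.ofObj fun i =>
        (DerivedCategory.singleFunctor X.Modules 0).obj (L i)).triangEnvelope = isPerfect X :=
  ⟨F₁ k, pi₁ k, L12 k, inferInstance, dim₁ k, isLineBundle_L12 k, envelope_L12 k⟩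

end Pool.Agent.Results.MP_d96382_ag.TwoLineBundlesGenerate
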